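import Pool.Agent.Helper35.PI.St2

namespace Helper2.PI

open Helper35.PI

open scoped ContDiff Manifold Topology ENNReal BigOperators
open MeasureTheory Set Filter

theorem hC1 : StC1 := by
  intro n N v hv
  set S := Submodule.span ℝ (range v) with hS
  have hfr : Module.finrank ℝ S = n := by
    rw [hS, finrank_span_eq_card hv, Fintype.card_fin]
  let b : OrthonormalBasis (Fin (Module.finrank ℝ S)) ℝ S := stdOrthonormalBasis ℝ S
  let e : Fin (Module.finrank ℝ S) ≃ Fin n := finCongr hfr
  let b' : OrthonormalBasis (Fin n) ℝ S := b.reindex e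
  let L : EE n →ₗᵢ[ℝ] EE N := S.subtypeₗᵢ.comp b'.repr.symm.toLinearIsometry
  refine ⟨L, ?_⟩
  ext x
  simp only [LinearMap.mem_range]
  constructor
  · rintro ⟨y, rfl⟩
    exact (b'.repr.symm y).2
  · intro hx
    refine ⟨b'.repr ⟨x, hx⟩, ?_⟩
    show ((b'.repr.symm (b'.repr ⟨x, hx⟩) : S) : EE N) = x
    rw [LinearIsometryEquiv.symm_apply_apply]

end Helper2.PI
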