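import Pool.Agent.Helper35.PI.St2

namespace Helper2.PI

open Helper35.PI

open scoped ContDiff Manifold Topology ENNReal BigOperators
open MeasureTheory Set Filter

section Gen

variable {E V : Type*} [NormedAddCommGroup E] [NormedSpace ℝ E]
  [NormedAddCommGroup V] [NormedSpace ℝ V]

/-- directional derivative -/
noncomputable def DD (v : E) (φ : E → V) (z : E) : V := fderiv ℝ φ z v

lemma DD_congr {φ ψ : E → V} {z : E} (h : φ =ᶠ[𝓝 z] ψ) (v : E) : DD v φ z = DD v ψ z := by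
  unfold DD
  rw [h.fderiv_eq]

lemma DD_ev {φ ψ : E → V} {z : E} (h : φ =ᶠ[𝓝 z] ψ) (v : E) : DD v φ =ᶠ[𝓝 z] DD v ψ := by
  filter_upwards [h.eventuallyEq_nhds] with z' hz' using DD_congr hz' v

lemma DD_smooth {φ : E → V} {z : E} {m k : WithTop ℕ∞} (h : ContDiffAt ℝ k φ z)
    (hmk : m + 1 ≤ k) (v : E) : ContDiffAt ℝ m (DD v φ) z :=
  (h.fderiv_right hmk).clm_apply contDiffAt_const

lemma DD_comm {φ : E → V} {z : E} (h : ContDiffAt ℝ 2 φ z) (v w : E) :
    DD v (DD w φ) z = DD w (DD v φ) z := by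
  have hs : IsSymmSndFDerivAt ℝ φ z := h.isSymmSndFDerivAt (by
    rw [minSmoothness_of_isRCLikeNormedField])
  have hd : DifferentiableAt ℝ (fderiv ℝ φ) z :=
    (h.fderiv_right (m := 1) (by norm_num)).differentiableAt (by norm_num)
  have key : ∀ v w : E, DD v (DD w φ) z = (fderiv ℝ (fderiv ℝ φ) z v) w := by
    intro v w
    show fderiv ℝ (fun z' => fderiv ℝ φ z' w) z v = _
    rw [fderiv_clm_apply hd (differentiableAt_const w)]
    simp
  rw [key, key, hs.eq]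

lemma DD_comm_ev {φ : E → V} {z : E} (h : ContDiffAt ℝ 2 φ z) (v w : E) :
    DD v (DD w φ) =ᶠ[𝓝 z] DD w (DD v φ) := by
  filter_upwards [h.eventually (by norm_num)] with z' hz' using DD_comm hz' v w

lemma DD_add {φ ψ : E → V} {z : E} (h1 : DifferentiableAt ℝ φ z) (h2 : DifferentiableAt ℝ ψ z)
    (v : E) : DD v (fun z => φ z + ψ z) z = DD v φ z + DD v ψ z := by
  unfold DD
  rw [fderiv_fun_add h1 h2]
  simp

lemma DD_sum {ι : Type*} (s : Finset ι) (φ : ι → E → V) {z : E}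
    (h : ∀ i ∈ s, DifferentiableAt ℝ (φ i) z) (v : E) :
    DD v (fun z => ∑ i ∈ s, φ i z) z = ∑ i ∈ s, DD v (φ i) z := by
  unfold DD
  rw [fderiv_fun_sum h]
  simp

lemma DD_sum2 {ι : Type*} (s : Finset ι) (φ : ι → E → V) {z : E}
    (h : ∀ i ∈ s, ContDiffAt ℝ 2 (φ i) z) (v w : E) :
    DD v (DD w (fun z => ∑ i ∈ s, φ i z)) z = ∑ i ∈ s, DD v (DD w (φ i)) z := by
  have h1 : DD w (fun z => ∑ i ∈ s, φ i z) =ᶠ[𝓝 z] fun z => ∑ i ∈ s, DD w (φ i) z := by
    have h2 : ∀ᶠ z' in 𝓝 z, ∀ i ∈ s, ContDiffAt ℝ 2 (φ i) z' :=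
      (Finset.eventually_all s).mpr fun i hi => (h i hi).eventually (by norm_num)
    filter_upwards [h2] with z' hz'
    exact DD_sum s φ (fun i hi => (hz' i hi).differentiableAt (by norm_num)) w
  rw [DD_congr h1 v]
  exact DD_sum s _ (fun i hi => (DD_smooth (m := 1) (h i hi) (by norm_num) w).differentiableAt
    (by norm_num)) v

lemma DD_smul (φ : E → ℝ) (ψ : E → V) {z : E} (h1 : DifferentiableAt ℝ φ z)
    (h2 : DifferentiableAt ℝ ψ z) (v : E) :
    DD v (fun z => φ z • ψ z) z = φ z • DD v ψ z + DD v φ z • ψ z := by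
  unfold DD
  rw [fderiv_fun_smul h1 h2]
  simp

lemma DD_smul2 (φ : E → ℝ) (ψ : E → V) {z : E} (h1 : ContDiffAt ℝ 2 φ z)
    (h2 : ContDiffAt ℝ 2 ψ z) (v w : E) (hv : DD v φ z = 0) (hw : DD w φ z = 0) :
    DD v (DD w (fun z => φ z • ψ z)) z = φ z • DD v (DD w ψ) z + DD v (DD w φ) z • ψ z := by
  have e : DD w (fun z => φ z • ψ z) =ᶠ[𝓝 z] fun z => φ z • DD w ψ z + DD w φ z • ψ z := by
    filter_upwards [h1.eventually (by norm_num), h2.eventually (by norm_num)] with z' hz1 hz2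
    exact DD_smul φ ψ (hz1.differentiableAt (by norm_num)) (hz2.differentiableAt (by norm_num)) w
  rw [DD_congr e v]
  have d1 := h1.differentiableAt (by norm_num)
  have d2 := h2.differentiableAt (by norm_num)
  have d3 : DifferentiableAt ℝ (DD w φ) z :=
    (DD_smooth (m := 1) h1 (by norm_num) w).differentiableAt (by norm_num)
  have d4 : DifferentiableAt ℝ (DD w ψ) z :=
    (DD_smooth (m := 1) h2 (by norm_num) w).differentiableAt (by norm_num)
  rw [DD_add (φ := fun z => φ z • DD w ψ z) (ψ := fun z => DD w φ z • ψ z)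
    (d1.smul d4) (d3.smul d2), DD_smul φ _ d1 d4 v, DD_smul _ ψ d3 d2 v, hv, hw]
  simp

end Gen

theorem hG4 (hG0 : StG0) (hG2 : StG2) (hG3 : StG3) (hG1 : StG1) (hJA : StJA) (hJB : StJB) :
    StG4 := by
  intro n N x₀ L u t₀ hu i j
  have hsm : ContDiffAt ℝ 5 u (0, t₀) := by exact_mod_cast contDiffAt_infty.mp hu.smooth 5
  set z₀ : EE n × ℝ := (0, t₀) with hz₀
  let e : Fin n → EE n × ℝ := fun k => (ee k, 0)
  let τ : EE n × ℝ := (0, 1)
  have hjg : ∀ (W : Type) [NormedAddCommGroup W] [NormedSpace ℝ W] (φ : EE n × ℝ → W) (k : Fin n),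
      (fun z => jg φ z k) = DD (e k) φ := fun W _ _ φ k => rfl
  have hjgg : ∀ (W : Type) [NormedAddCommGroup W] [NormedSpace ℝ W] (φ : EE n × ℝ → W)
      (k l : Fin n), (fun z => jgg φ z k l) = DD (e k) (DD (e l) φ) := fun W _ _ φ k l => rfl
  have hjt : ∀ (W : Type) [NormedAddCommGroup W] [NormedSpace ℝ W] (φ : EE n × ℝ → W),
      (fun z => jt φ z) = DD τ φ := fun W _ _ φ => rfl
  -- smoothness of the derivatives
  have s1 : ∀ v, ContDiffAt ℝ 4 (DD v u) z₀ := fun v => DD_smooth hsm (by norm_num) v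
  have s2 : ∀ v w, ContDiffAt ℝ 3 (DD v (DD w u)) z₀ := fun v w =>
    DD_smooth (s1 w) (by norm_num) v
  -- commute derivatives
  have c3 : ∀ v a b : EE n × ℝ, DD v (DD a (DD b u)) z₀ = DD a (DD b (DD v u)) z₀ := by
    intro v a b
    rw [DD_comm ((s1 b).of_le (by norm_num)) v a]
    exact DD_congr (DD_comm_ev (hsm.of_le (by norm_num)) v b) a
  have c3e : ∀ v a b : EE n × ℝ, DD v (DD a (DD b u)) =ᶠ[𝓝 z₀] DD a (DD b (DD v u)) := by
    intro v a b
    have h1 : DD v (DD a (DD b u)) =ᶠ[𝓝 z₀] DD a (DD v (DD b u)) :=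
      DD_comm_ev ((s1 b).of_le (by norm_num)) v a
    exact h1.trans (DD_ev (DD_comm_ev (hsm.of_le (by norm_num)) v b) a)
  have c4 : ∀ v a b : EE n × ℝ,
      DD v (DD v (DD a (DD b u))) z₀ = DD a (DD b (DD v (DD v u))) z₀ := by
    intro v a b
    rw [DD_congr (c3e v a b) v]
    -- now `v a b` applied to `DD v u`
    have h1 : DD v (DD a (DD b (DD v u))) z₀ = DD a (DD v (DD b (DD v u))) z₀ :=
      DD_comm ((s2 b v).of_le (by norm_num)) v a
    rw [h1]
    exact DD_congr (DD_comm_ev ((s1 v).of_le (by norm_num)) v b) a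
  -- the differentiated equation
  have hpde : DD τ u =ᶠ[𝓝 z₀] fun z => ∑ a, ∑ b, GIf x₀ L u a b z • DD (e a) (DD (e b) u) z := by
    filter_upwards [hu.pde] with z hz
    exact hz
  have hterm : ∀ a b : Fin n, ContDiffAt ℝ 2
      (fun z => GIf x₀ L u a b z • DD (e a) (DD (e b) u) z) z₀ := fun a b =>
    (show ContDiffAt ℝ 2 (GIf x₀ L u a b) z₀ by
      exact_mod_cast contDiffAt_infty.mp (hG0 n N x₀ L u t₀ hu a b).1 2).smul
      ((s2 (e a) (e b)).of_le (by norm_num))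
  have hD2 : DD (e i) (DD (e j) (DD τ u)) z₀ =
      ∑ a, ∑ b, ((if a = b then (1 : ℝ) else 0) • DD (e i) (DD (e j) (DD (e a) (DD (e b) u))) z₀
        + (-(inner ℝ (jgg u z₀ i a) (jgg u z₀ j b) + inner ℝ (jgg u z₀ j a) (jgg u z₀ i b)) : ℝ)
          • jgg u z₀ a b) := by
    rw [DD_congr (DD_ev hpde (e j)) (e i)]
    rw [DD_sum2 Finset.univ (fun a z => ∑ b, GIf x₀ L u a b z • DD (e a) (DD (e b) u) z)
      (fun a _ => ContDiffAt.sum fun b _ => hterm a b) (e i) (e j)]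
    refine Finset.sum_congr rfl fun a _ => ?_
    rw [DD_sum2 Finset.univ (fun b z => GIf x₀ L u a b z • DD (e a) (DD (e b) u) z)
      (fun b _ => hterm a b) (e i) (e j)]
    refine Finset.sum_congr rfl fun b _ => ?_
    obtain ⟨g1, g2, g3, -, g5⟩ := hG0 n N x₀ L u t₀ hu a b
    rw [DD_smul2 (GIf x₀ L u a b) (DD (e a) (DD (e b) u)) (by exact_mod_cast contDiffAt_infty.mp g1 2)
      ((s2 (e a) (e b)).of_le (by norm_num)) (e i) (e j) (g3 i) (g3 j)]
    rw [show GIf x₀ L u a b z₀ = (if a = b then 1 else 0) from g2]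
    congr 1
    have := g5 i j
    rw [show DD (e i) (DD (e j) (GIf x₀ L u a b)) z₀ = _ from this]
    rfl
  have hsym := (hG1 n N x₀ L u t₀ hu).1
  have hLHS : jh (fun z => jgg u z i j) z₀ =
      DD (e i) (DD (e j) (DD τ u)) z₀ - ∑ k, DD (e i) (DD (e j) (DD (e k) (DD (e k) u))) z₀ := by
    show DD τ (DD (e i) (DD (e j) u)) z₀ - ∑ k, DD (e k) (DD (e k) (DD (e i) (DD (e j) u))) z₀ = _
    rw [c3 τ (e i) (e j)]
    congr 1
    exact Finset.sum_congr rfl fun k _ => c4 (e k) (e i) (e j)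
  rw [hLHS, hD2]
  have hδ : ∀ a : Fin n, ∑ b, (if a = b then (1 : ℝ) else 0) •
      DD (e i) (DD (e j) (DD (e a) (DD (e b) u))) z₀ =
      DD (e i) (DD (e j) (DD (e a) (DD (e a) u))) z₀ := by
    intro a
    rw [Finset.sum_eq_single a]
    · simp
    · intro b _ hb
      rw [if_neg (Ne.symm hb), zero_smul]
    · intro h
      exact absurd (Finset.mem_univ a) h
  have e1 : (∑ a, ∑ b, ((if a = b then (1 : ℝ) else 0) •
        DD (e i) (DD (e j) (DD (e a) (DD (e b) u))) z₀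
        + (-(inner ℝ (jgg u z₀ i a) (jgg u z₀ j b) + inner ℝ (jgg u z₀ j a) (jgg u z₀ i b)) : ℝ)
          • jgg u z₀ a b)) =
      (∑ a, DD (e i) (DD (e j) (DD (e a) (DD (e a) u))) z₀) +
      ∑ a, ∑ b, (-(inner ℝ (jgg u z₀ i a) (jgg u z₀ j b)
        + inner ℝ (jgg u z₀ j a) (jgg u z₀ i b)) : ℝ) • jgg u z₀ a b := by
    rw [← Finset.sum_add_distrib]
    refine Finset.sum_congr rfl fun a _ => ?_
    rw [Finset.sum_add_distrib, hδ a]
  rw [e1, add_sub_cancel_left]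
  -- the two halves agree
  have e2 : ∑ a, ∑ b, (inner ℝ (jgg u z₀ j a) (jgg u z₀ i b) : ℝ) • jgg u z₀ a b =
      ∑ a, ∑ b, (inner ℝ (jgg u z₀ i a) (jgg u z₀ j b) : ℝ) • jgg u z₀ a b := by
    rw [Finset.sum_comm]
    refine Finset.sum_congr rfl fun a _ => Finset.sum_congr rfl fun b _ => ?_
    rw [real_inner_comm, hsym b a]
  have e3 : ∑ a, ∑ b, (inner ℝ (jgg u z₀ i a) (jgg u z₀ j b) : ℝ) • jgg u z₀ a b =
      ∑ a, ∑ b, (inner ℝ (jgg u z₀ a i) (jgg u z₀ b j) : ℝ) • jgg u z₀ a b := by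
    refine Finset.sum_congr rfl fun a _ => Finset.sum_congr rfl fun b _ => ?_
    rw [hsym i a, hsym j b]
  rw [← e3]
  have e4 : ∀ a b : Fin n, (-(inner ℝ (jgg u z₀ i a) (jgg u z₀ j b)
        + inner ℝ (jgg u z₀ j a) (jgg u z₀ i b)) : ℝ) • jgg u z₀ a b =
      -((inner ℝ (jgg u z₀ i a) (jgg u z₀ j b) : ℝ) • jgg u z₀ a b)
        - (inner ℝ (jgg u z₀ j a) (jgg u z₀ i b) : ℝ) • jgg u z₀ a b := by
    intro a b
    module
  simp only [e4, Finset.sum_sub_distrib, Finset.sum_neg_distrib]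
  rw [e2]
  module

end Helper2.PI
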